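import Pool.Agent.H663R2.OddHolePoly

/-!
# Optimal colouring of odd-hole-free graphs is NP-hard
-/

namespace Pool.Agent.Results.MP_27b024_lc.ColouringNPHard

open Pool.Agent.NPC Pool.Agent.NPC.OH663 Pool.Agent.H663R2.OddHole

/-- The colour of the vertex `v` in a colouring given by the list `c` of the colours of the
vertices, in the order of the vertex list `V`. -/
def colourOf (V c : List ℕ) (v : ℕ) : ℕ := c.getD (V.idxOf v) 0

/-- The list `c` describes an optimal colouring of the graph `toGraph I`: it is proper and the
number of colours used is the chromatic number. -/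
def IsOptimalColouring (I : List ℕ × List (ℕ × ℕ)) (c : List ℕ) : Prop :=
  (∀ u v, (toGraph I).Adj u v → colourOf I.1 c u.1 ≠ colourOf I.1 c v.1) ∧
    (((I.1.toFinset.image (colourOf I.1 c)).card : ℕ) : ℕ∞) = (toGraph I).chromaticNumber

/-- The algorithm `A` solves the optimal colouring problem on odd-hole-free graphs: for every
odd-hole-free graph, given by its lists of vertices and edges, it outputs an optimal colouring. -/
def SolvesColouring (A : List Bool → List Bool) : Prop :=
  ∀ I : List ℕ × List (ℕ × ℕ), OddHoleFree (toGraph I) →
    ∃ c : List ℕ, A (bits I) = bits c ∧ IsOptimalColouring I c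

lemma idxOf_range (m v : ℕ) (h : v < m) : (List.range m).idxOf v = v := by
  have h1 : v ∈ List.range m := List.mem_range.mpr h
  have h2 := List.idxOf_lt_length_iff.mpr h1
  have h3 : (List.range m)[(List.range m).idxOf v]'h2 = v := List.getElem_idxOf h2
  rwa [List.getElem_range] at h3

/-- **Optimal colouring of odd-hole-free graphs is NP-hard.**
Every language in `NP` is reduced, in polynomial time, to the question whether an odd-hole-free
graph is `k`-colourable; and if some polynomial-time algorithm outputs an optimal colouring of every
odd-hole-free graph, then every language in `NP` is decidable in polynomial time. -/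
theorem result :
    (∀ L : Set (List Bool), InNP L → ∃ f : List Bool → (List ℕ × List (ℕ × ℕ)) × ℕ,
      PolyTime (fun x => bits (f x)) ∧ (∀ x, OddHoleFree (toGraph (f x).1)) ∧
        ∀ x, x ∈ L ↔ (toGraph (f x).1).Colorable (f x).2) ∧
    (∀ A : List Bool → List Bool, PolyTime A → SolvesColouring A →
      ∀ L : Set (List Bool), InNP L →
        ∃ D : List Bool → Bool, PolyTime (fun x => bits (D x)) ∧ ∀ x, x ∈ L ↔ D x = true) := by
  constructor
  · intro L hL
    obtain ⟨g, hg, hgL⟩ := hardI_SAT3 L hL
    refine ⟨fun x => inst (g x), PC.toPolyTime_bits inst_poly g hg, fun x => inst_ohf _, fun x => ?_⟩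
    rw [hgL x]
    exact inst_iff _
  · intro A hA hsol L hL
    obtain ⟨g, hg, hgL⟩ := hardI_SAT3 L hL
    have hA' := Pool.Agent.H642R2.TMSim.polyTime_toPC hA
    -- the output of the algorithm
    choose c hc using fun x : List Bool => hsol (inst (g x)).1 (inst_ohf (g x))
    have h1 : PC (fun x : List Bool => x) (bits : (List ℕ × List (ℕ × ℕ)) → List Bool)
        (fun x => (inst (g x)).1) :=
      PC.comp (g := fun φ => (inst φ).1) inst_fst_poly hg
    have h2 : PC (fun x : List Bool => x) (id : List Bool → List Bool)
        (fun x => A (bits (inst (g x)).1)) := by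
      obtain ⟨cm, q, hcm⟩ := h1
      have h1' : PC (fun x : List Bool => x) (id : List Bool → List Bool)
          (fun x => bits (inst (g x)).1) := ⟨cm, q, hcm⟩
      exact PC.comp hA' h1'
    have h3 : PC (fun x : List Bool => x) (bits : List ℕ → List Bool) c := by
      obtain ⟨cm, q, hcm⟩ := h2
      refine ⟨cm, q, fun x => ?_⟩
      have := hcm x
      simp only [id] at this
      rw [(hc x).1] at this
      exact this
    -- both the formula and the output
    have h4 : PC (fun x : List Bool => x)
        (bits : (List (Lit ℕ × Lit ℕ × Lit ℕ)) × List ℕ → List Bool) (fun x => (g x, c x)) :=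
      PC.node (f := fun x => toT (g x)) (g := fun x => toT (c x)) hg h3
    refine ⟨fun x => dec (g x, c x), PC.toPolyTime (show PC (fun x : List Bool => x)
      (bits : Bool → List Bool) (fun x => dec (g x, c x)) from PC.comp dec_poly h4), fun x => ?_⟩
    rw [hgL x, inst_iff]
    simp only [dec, decide_eq_true_eq]
    obtain ⟨_, hopt⟩ := (hc x).2
    -- the number of colours used
    have hcount : (dd ((gV (cE (g x))).map fun v => (c x).getD v 0)).length
        = ((inst (g x)).1.1.toFinset.image (colourOf (inst (g x)).1.1 (c x))).card := by
      rw [dd_length]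
      congr 1
      ext y
      simp only [List.mem_toFinset, List.mem_map, Finset.mem_image]
      have hrange : ∀ v, v ∈ gV (cE (g x)) →
          colourOf (inst (g x)).1.1 (c x) v = (c x).getD v 0 := by
        intro v hv
        have hv' : v < 3 * (cE (g x)).length := by
          have := hv
          unfold gV at this
          exact List.mem_range.mp this
        have : (inst (g x)).1.1 = List.range (3 * (cE (g x)).length) := rfl
        unfold colourOf
        rw [this, idxOf_range _ _ hv']
      constructor
      · rintro ⟨v, hv, rfl⟩
        exact ⟨v, hv, hrange v hv⟩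
      · rintro ⟨v, hv, rfl⟩
        exact ⟨v, hv, (hrange v hv).symm⟩
    rw [← SimpleGraph.chromaticNumber_le_iff_colorable, ← hopt, hcount]
    exact Nat.cast_le

end Pool.Agent.Results.MP_27b024_lc.ColouringNPHard
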